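import Pool.Agent.U935.KP.Main

/-!
# Kontsevich's period conjecture and the cubics `∑ x_i y_j z_k = 1`

* `𝓜` is Nori's category of mixed motives over `ℚ̄ ⊂ ℂ`, an abelian category, with its de Rham
  realisation `M_dR`, the dual `(M_B)^∨` of its Betti realisation and the integration pairing `∫_σ ω` for
  `ω ∈ M_dR` and `σ ∈ (M_B)^∨` (`Realisations`). For `M = H^i(X, Y)` these are the relative algebraic de
  Rham cohomology classes `ω ∈ H^i_dR(X, Y)` and the singular homology classes `σ ∈ H_i(X, Y; ℚ)`.
* The space of formal periods is the `ℚ̄`-vector space spanned by the symbols `(M, ω, σ)` modulo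
  bilinearity and functoriality `(N, f ω, σ) = (M, ω, f^* σ)` for all morphisms `f : M → N` of motives
  (the connecting homomorphisms `H^i(Y, Z) → H^(i+1)(X, Y)` are such morphisms); `relations D` is the
  subspace spanned by the relations. By Nori's theorem this is the space of formal periods of the
  problem (with `2 π i` inverted). `ev D` is the evaluation map, and `EvInjective D` says that it is
  injective on the space of formal periods.
* `O b m X`, for the separated schemes `X` of finite type over `ℚ`, is the motive
  `H_{m + 2 b}(X_ℚ̄)(b)` (Borel-Moore homology); for `X` smooth of pure dimension `d` this is the motive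
  `H^{2 j - m}(X_ℚ̄)(j)`, `j = d - b`. `IsNori` lists the known properties which are used.
* `bilS T` is the closed subvariety `Z_T` of `𝔸^(a₂ + a₃)` given by the `a₁` bilinear equations
  `∂T/∂x_i (y, z) = 0`, where `T` is a trilinear form in three blocks `x`, `y`, `z` of `a₁`, `a₂`, `a₃`
  variables; `tripS ℚ H`, for a finite set `H` of triples, is the smooth affine hypersurface
  `Y_H : ∑_{(i, j, k) ∈ H} x_i y_j z_k = 1` of dimension `d = a₁ + a₂ + a₃ - 1`, and
  `O (d - j) n (tripS ℚ H)` is the motive `H^{2 j - n}(Y_H)(j)`. The twist multiplies all periods by a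
  power of `2 π i`.

Theorem. Let `S` be a set of integers which is not bounded above, and `s` a number. The following
assertions are equivalent:
* (Q1) the evaluation map is injective on the space of all formal periods;
* for all systems of bilinear equations with coefficients `0` and `1`, all `b` and all `n` in `S`: if
  an integral `∫_σ ω` of the motive `H_{n + 2 b}(Z_T)(b)` vanishes, then its symbol is zero in the
  space of formal periods;
* for all finite sets `H` of triples, all `j ≥ s` and all `n` in `S`: each `ℚ̄`-linear relation between the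
  periods of the single motive `H^{2 j - n}(Y_H)(j)` is formal;
* for all finite sets `H` of triples, all `j ≥ s` and all `n` in `S`: if `∫_σ ω = 0` for a class
  `ω ∈ H^{2 j - n}_dR(Y_H)(j)` and a cycle `σ` on `Y_H`, then the formal period `(Y_H, ω, σ)` is zero.

So Kontsevich's conjecture is a statement on single vanishing integrals (without linear combinations
and without relative cohomology) on the hypersurfaces `∑ x_i y_j z_k = 1`, which have no coefficients.
In particular, if the `ℚ̄`-linear relations between the periods of single varieties of this kind are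
formal then so are all `ℚ̄`-linear relations between the periods of varieties over `ℚ̄`.

Proof. Each formal period is the class of a single symbol (direct sums), the symbols of a subquotient of
`M` are symbols of `M`, and the universality theorem for trilinear forms of helper554 (`U554/TU`,
`U554/TW`) shows that each motive is a subquotient of a motive `H^{2 j - n}(Y_H)(j)`.
-/

set_option autoImplicit false

open CategoryTheory AlgebraicGeometry Pool.Agent.Y116.UV Pool.Agent.U554.TU Pool.Agent.U554.TW
  Pool.Agent.U935.KP

universe v u w

namespace Pool.Agent.Results.MP_1eadae_ag.CubicPeriods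

/-- **Kontsevich's period conjecture and the cubic hypersurfaces `∑ x_i y_j z_k = 1`.** -/
theorem result {𝓜 : Type u} [Category.{v} 𝓜] [Abelian 𝓜] (D : Realisations.{v, u, w} 𝓜)
    (O : ℤ → ℤ → Sch ℚ → 𝓜) (hO : IsNori D O) (S : Set ℤ) (hS : ∀ N : ℤ, ∃ n ∈ S, N ≤ n) (s : ℕ) :
    List.TFAE [
      EvInjective D,
      ∀ (a₁ a₂ a₃ : ℕ) (T : Fin a₁ → Fin a₂ → Fin a₃ → ℚ),
        (∀ i j l, T i j l = 0 ∨ T i j l = 1) → ∀ b : ℤ, ∀ n ∈ S,
          VanishingOn D (O b n (bilS T)),
      ∀ (a₁ a₂ a₃ : ℕ) (H : Finset (Fin a₁ × Fin a₂ × Fin a₃)) (j : ℕ), s ≤ j → ∀ n ∈ S,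
        InjectiveOn D (O (a₁ + a₂ + a₃ - 1 - j) n (tripS ℚ H)),
      ∀ (a₁ a₂ a₃ : ℕ) (H : Finset (Fin a₁ × Fin a₂ × Fin a₃)) (j : ℕ), s ≤ j → ∀ n ∈ S,
        VanishingOn D (O (a₁ + a₂ + a₃ - 1 - j) n (tripS ℚ H))] :=
  main hO S hS s

end Pool.Agent.Results.MP_1eadae_ag.CubicPeriods
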