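import Pool.Agent.U725.MT.DegOne

/-!
# Mixed Tate motives generated in degree one: no proper subtorsor contains the comparison isomorphism

Let `M` be a mixed Tate motive over a number field. In suitable bases the torsor of its motivic periods is an algebraic
group `G = U ⋊ 𝔾_m ⊆ GL_B` over `ℚ` (`IsMixedTate`; `𝔾_m` acts by the weights `wt`), and the comparison isomorphism is
`c = exp(L) τ(2πi)` with `L` in the Lie algebra `𝔲` of `U`. We say that `M` is generated in degree one if the Lie algebra
`𝔲` is generated by its elements of degree one, that is if all extensions in `M` come from the extensions of `ℚ(0)` by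
`ℚ(1)` (Kummer motives, logarithms) by iteration. Then `L` is, modulo commutators, a sum `∑ ℓ_j N_j` with rational elements
`N_j ∈ 𝔲` of degree one and logarithms `ℓ_j` of multiplicatively independent algebraic numbers.

**Theorem.** For every field `K` of algebraic numbers, the smallest `K`-subtorsor of `GL_B` which contains the comparison
isomorphism `c` is `G`.

The period conjecture of Grothendieck and Kontsevich for `M` says that no proper subvariety of `G` over the field of
algebraic numbers contains `c`. The theorem says that no proper subtorsor does (`x y⁻¹ z ∈ T` for all `x, y, z ∈ T`): all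
relations between the periods which come from tensors are motivic. The other coordinates of `L` (periods of degree `≥ 2`,
such as values of dilogarithms and of multiple polylogarithms) are arbitrary complex numbers here. Examples are the motives
of the multiple polylogarithms `Li_(n_1, …, n_k)(x_1, …, x_k)` at algebraic points `x` for which the letters which occur are
multiplicatively independent. The case of the polylogarithm motives `Pol_N(a_i)` is worked out in `PolylogTorsors.lean`.

## Proof

Let `T` be a `K`-subtorsor with `c ∈ T`. By the criterion `crit` in `Pool/Agent/U725/MT` (see also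
`Pool/Agent/Results/MP_e54452_nt/IrrationalityCriterion.lean`) `G ⊆ T` if there is no linear form `f ≠ 0` over `K` on
`𝔲 / [𝔲, 𝔲]`, homogeneous of a degree `d`, with `f(L) ∈ K + K (2πi)^d`. Here only `d = 1` is possible, and then
`f(L) = ∑ f(N_j) ℓ_j`. So `f(N_j) = 0` by the theorem of Baker on linear forms in logarithms
(`Pool.Agent.H335R2.baker_inhom`).
-/

set_option autoImplicit false

open Matrix

open scoped Nat

namespace Pool.Agent.Results.MP_1eadae_ag.GeneratedInDegreeOne

/-- `T` is (the set of complex points of) a `K`-subtorsor of `GL_B`: it is closed under `x y⁻¹ z`, and it is defined in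
`GL_B` by polynomials with coefficients in `K`. -/
def IsSubtorsor (K : Subfield ℂ) {B : Type} [Fintype B] [DecidableEq B] (T : Set (Matrix B B ℂ)) : Prop :=
  (∀ x ∈ T, ∀ y ∈ T, ∀ z ∈ T, x * y⁻¹ * z ∈ T) ∧ ∃ J : Set (MvPolynomial (B × B) K), ∀ x : Matrix B B ℂ, x ∈ T ↔
    IsUnit x ∧ ∀ p ∈ J, MvPolynomial.eval (fun b => x b.1 b.2) (MvPolynomial.map (algebraMap K ℂ) p) = 0

/-- the field of the rational numbers, as a subfield of `ℂ` -/
noncomputable def QQ : Subfield ℂ := (algebraMap ℚ ℂ).fieldRange

/-- `Ω` is the smallest `K`-subtorsor which contains `c` -/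
def IsOmega (K : Subfield ℂ) {B : Type} [Fintype B] [DecidableEq B] (c : Matrix B B ℂ) (Ω : Set (Matrix B B ℂ)) : Prop :=
  IsSubtorsor K Ω ∧ c ∈ Ω ∧ ∀ T : Set (Matrix B B ℂ), IsSubtorsor K T → c ∈ T → Ω ⊆ T

/-- the numbers `α j` are multiplicatively independent -/
def MulIndep {J : Type} [Fintype J] (α : J → ℂ) : Prop := ∀ u : J → ℤ, ∏ j, α j ^ u j = 1 → u = 0

/-- the action of the multiplicative group: the diagonal matrix of the `l ^ wt b` -/
def torus {B : Type} [DecidableEq B] (wt : B → ℕ) (l : ℂ) : Matrix B B ℂ := Matrix.diagonal fun b => l ^ wt b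

/-- `X` maps to strictly larger weights -/
def Strict {B : Type} (wt : B → ℕ) (X : Matrix B B ℂ) : Prop := ∀ b b', X b b' ≠ 0 → wt b' < wt b

/-- `G` is an algebraic group over `ℚ` which is the semidirect product of the torus and of a group of unipotent matrices
which are triangular with respect to the weights -/
structure IsMixedTate {B : Type} [Fintype B] [DecidableEq B] (wt : B → ℕ) (G : Set (Matrix B B ℂ)) : Prop where
  algebraic : IsSubtorsor QQ G
  torus_mem : ∀ l : ℂ, l ≠ 0 → torus wt l ∈ G
  triangular : ∀ x ∈ G, ∃ l : ℂ, l ≠ 0 ∧ Strict wt (x * torus wt l⁻¹ - 1)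

/-- the Lie algebra of the unipotent part of `G` -/
def lieU {B : Type} [Fintype B] [DecidableEq B] (wt : B → ℕ) (G : Set (Matrix B B ℂ)) : Set (Matrix B B ℂ) :=
  {X | Strict wt X ∧ IsNilpotent.exp X ∈ G}

/-- the space spanned by the commutators of elements of the Lie algebra -/
def commutators {B : Type} [Fintype B] [DecidableEq B] (wt : B → ℕ) (G : Set (Matrix B B ℂ)) :
    Submodule ℂ (Matrix B B ℂ) :=
  Submodule.span ℂ {Z | ∃ X ∈ lieU wt G, ∃ Y ∈ lieU wt G, Z = X * Y - Y * X}

/-- a rational matrix as a complex matrix -/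
def toC {B : Type} (N : Matrix B B ℚ) : Matrix B B ℂ := N.map fun q => (q : ℂ)

open Pool.Agent.U725.MT Pool.Agent.Y123.ST

section Aux

variable {B : Type} [Fintype B] [DecidableEq B] {wt : B → ℕ} {G : Set (Matrix B B ℂ)}

theorem QQ_le (K : Subfield ℂ) : QQ ≤ K := by
  rintro _ ⟨q, rfl⟩
  exact SubfieldClass.ratCast_mem K q

theorem toMt (hG : IsMixedTate wt G) {K : Subfield ℂ} (hK : ∀ x ∈ K, IsAlgebraic ℚ x) : Mt K wt G :=
  Mt.of_tri hK (sub_mono (QQ_le K) (subT_iff.1 hG.algebraic)) hG.torus_mem hG.triangular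

theorem mem_lieU (hG : IsMixedTate wt G) {K : Subfield ℂ} (hK : ∀ x ∈ K, IsAlgebraic ℚ x) {X : Matrix B B ℂ} :
    X ∈ lieU wt G ↔ fl X ∈ UU wt G :=
  ⟨fun h => (toMt hG hK).log_mem h.1 h.2, fun h => ⟨h.1, (toMt hG hK).exp_mem h⟩⟩

/-- matrices as functions -/
def flL : Matrix B B ℂ →ₗ[ℂ] (B × B → ℂ) where
  toFun := fl
  map_add' := fl_add
  map_smul' := fl_smul

theorem mem_comm (hG : IsMixedTate wt G) {K : Subfield ℂ} (hK : ∀ x ∈ K, IsAlgebraic ℚ x) {Z : Matrix B B ℂ} :
    Z ∈ commutators wt G ↔ fl Z ∈ CC wt G := by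
  have h1 : CC wt G = (commutators wt G).map flL := by
    unfold CC commutators
    rw [Submodule.map_span]
    congr 1
    ext w
    constructor
    · rintro ⟨X, Y, hX, hY, rfl⟩
      exact ⟨_, ⟨X, (mem_lieU hG hK).2 hX, Y, (mem_lieU hG hK).2 hY, rfl⟩, rfl⟩
    · rintro ⟨_, ⟨X, hX, Y, hY, rfl⟩, rfl⟩
      exact ⟨X, Y, (mem_lieU hG hK).1 hX, (mem_lieU hG hK).1 hY, rfl⟩
  rw [h1]
  constructor
  · exact fun h => ⟨Z, h, rfl⟩
  · rintro ⟨Z', h2, h3⟩
    have h4 : Z' = Z := by
      have := congrArg um h3
      exact this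
    rwa [← h4]

end Aux

/-- **Main result.** -/
theorem result {B : Type} [Fintype B] [DecidableEq B] (wt : B → ℕ) (G : Set (Matrix B B ℂ)) (hG : IsMixedTate wt G)
    -- the Lie algebra is generated in degree one
    {J : Type} [Fintype J] (N : J → Matrix B B ℚ) (hN : ∀ j b b', N j b b' ≠ 0 → wt b = wt b' + 1)
    (hspan : ∀ X ∈ lieU wt G, ∃ x : J → ℂ, X - ∑ j, x j • toC (N j) ∈ commutators wt G)
    -- the period matrix, and logarithms of algebraic numbers
    (L : Matrix B B ℂ) (ℓ : J → ℂ) (hL : L ∈ lieU wt G) (hLz : L - ∑ j, ℓ j • toC (N j) ∈ commutators wt G)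
    (halg : ∀ j, IsAlgebraic ℚ (Complex.exp (ℓ j))) (hind : MulIndep fun j => Complex.exp (ℓ j))
    (K : Subfield ℂ) (hK : ∀ x ∈ K, IsAlgebraic ℚ x) :
    IsOmega K (IsNilpotent.exp L * torus wt (2 * Real.pi * Complex.I)) G := by
  classical
  have hM : Mt K wt G := toMt hG hK
  have hLU : fl L ∈ UU wt G := (mem_lieU hG hK).1 hL
  refine ⟨subT_iff.2 hM.hG, hM.mul_mem hL.2 (hG.torus_mem _ Complex.two_pi_I_ne_zero), fun T hT hc => ?_⟩
  refine hM.degOne' (fun j => toC (N j)) (fun j b b' hb => hN j b b' fun h0 => hb ?_)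
    (fun j b b' => SubfieldClass.ratCast_mem K (N j b b')) (fun X hX => ?_) hLU ℓ halg hind
    ((mem_comm hG hK).1 hLz) (subT_iff.1 hT) hc
  · change ((N j b b' : ℚ) : ℂ) = 0
    rw [h0, Rat.cast_zero]
  · obtain ⟨x, hx⟩ := hspan X ((mem_lieU hG hK).2 hX)
    exact ⟨x, (mem_comm hG hK).1 hx⟩

end Pool.Agent.Results.MP_1eadae_ag.GeneratedInDegreeOne
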