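import Pool.Agent.Y119.ML.Hyp
import Pool.Agent.U534.TensorSeq

/-!
# Infinite tensor products of hyperlogarithm periods

The hyperlogarithms of `ℙ¹ ∖ {0, α_1, …, α_r, ∞}` (`α_a` distinct nonzero integers) at an integer `t`, in the coordinate
`y = 1 / t`: iterated integrals from `0` to `1 / t` of the forms `dy / y` and `dy / (1 - α_a y)`.  They are periods, and
contain all multiple polylogarithms in one variable.  By the shuffle relations every polynomial in the iterated
integrals of all words (regularized at the tangential base point) is a linear combination of the numbers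
`(log t)^e HL_w(1 / t)`, `w` a word whose last letter is not `dy / y`.

The theorem: let the alphabet `α_j` and the weight `W_j` depend in an arbitrary way on `j = 0, 1, 2, …`.  In arbitrary
clustered sets of integers `A_j` there are points `t_j` such that ALL products of the numbers
`(log t_j)^e HL_w(1 / t_j)` (arbitrarily many factors, unbounded total weight, growing alphabets) are linearly
independent: the evaluation map is injective on the infinite tensor product of the spaces of formal numbers.  The same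
holds over given constants, and asymptotically over any countable set of constants, like the set of all periods.
-/

set_option autoImplicit false

namespace Pool.Agent.Results.MP_1eadae_ag.InfiniteTensorProducts

/-- The hyperlogarithm of a word: the iterated integral from `0` to `x` of the forms `dy / y` (for the letter `none`) and
`dy / (1 - α_a y)` (for the letter `some a`); the first letter is the outermost integration. -/
noncomputable def HL {r : ℕ} (α : Fin r → ℤ) : List (Option (Fin r)) → ℝ → ℝ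
  | [] => fun _ => 1
  | none :: w => fun x => ∫ y in (0 : ℝ)..x, HL α w y / y
  | some a :: w => fun x => ∫ y in (0 : ℝ)..x, HL α w y / (1 - α a * y)

/-- the words of length at most `W` whose last letter is not `none` -/
abbrev Word (r W : ℕ) : Type := {w : List (Option (Fin r)) // w.length ≤ W ∧ w.getLast? ≠ some none}

/-- there are finitely many words -/
noncomputable instance (r W : ℕ) : Fintype (Word r W) := inferInstanceAs (Fintype (Pool.Agent.Y119.ML.WI r W))

/-- the numbers `(log t)^e HL_w(1 / t)`, `e ≤ W`, `w` of length at most `W` -/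
noncomputable def num {r : ℕ} (α : Fin r → ℤ) (W t : ℕ) (b : Fin (W + 1) × Word r W) : ℂ :=
  (((Real.log t) ^ (b.1 : ℕ) * HL α b.2.1 (1 / t) : ℝ) : ℂ)

/-- a nontrivial linear relation with coefficients in `V` -/
def Related {β : Type} [Fintype β] (V : Submodule ℚ ℂ) (x : β → ℂ) : Prop :=
  ∃ v : β → ℂ, (∀ b, v b ∈ V) ∧ v ≠ 0 ∧ ∑ b, v b * x b = 0

/-- `A` is clustered: for all `E`, `M`, `N` there is a window `[t - H, t]` with `t ≥ (H + 2) ^ E` and `t - H > N` which
contains more than `M` elements of `A`.  (For instance every set which contains arbitrarily long intervals far out, and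
every set of positive upper density.) -/
def Clustered (A : Set ℕ) : Prop :=
  ∀ E M N : ℕ, ∃ H t : ℕ, (H + 2) ^ E ≤ t ∧ N + H < t ∧ M < (A ∩ Set.Icc (t - H) t).ncard

/-- the products `∏_{i < N} num(t_{l + i})(b_i)` of numbers at the points `t_l, …, t_{l + N - 1}` -/
noncomputable def products {r : ℕ → ℕ} (α : ∀ j, Fin (r j) → ℤ) (W t : ℕ → ℕ) (l N : ℕ)
    (b : (i : Fin N) → Fin (W (l + i) + 1) × Word (r (l + i)) (W (l + i))) : ℂ :=
  ∏ i : Fin N, num (α (l + i)) (W (l + i)) (t (l + i)) (b i)

section proofs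

theorem HL_eq' {r : ℕ} (α : Fin r → ℤ) (w : List (Option (Fin r))) : HL α w = Pool.Agent.Y119.ML.HL α w := by
  induction w with
  | nil => rfl
  | cons o w ih =>
    rcases o with _ | a
    · funext x
      simp only [HL, Pool.Agent.Y119.ML.HL, ih]
    · funext x
      simp only [HL, Pool.Agent.Y119.ML.HL, ih]

theorem num_eq {r : ℕ} (α : Fin r → ℤ) (W t : ℕ) : num α W t = Pool.Agent.Y119.ML.XX α W t := by
  funext b
  rw [num, HL_eq']
  rfl

theorem num_one {r : ℕ} (α : Fin r → ℤ) (W t : ℕ) : num α W t (0, ⟨[], by simp⟩) = 1 := by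
  show (((Real.log t) ^ ((0 : Fin (W + 1)) : ℕ) * HL α [] (1 / t) : ℝ) : ℂ) = 1
  simp [HL]

theorem hyp {r : ℕ} (α : Fin r → ℤ) (hα : Function.Injective α) (h0 : ∀ a, α a ≠ 0) (W : ℕ) :
    Pool.Agent.U534.Tens.WinH (num α W) := by
  intro D
  obtain ⟨E, M, h⟩ := Pool.Agent.Y119.ML.win_XX α hα h0 W D
  refine ⟨E, M, fun H t hHt V hVf hV S hS => h H t hHt V hV S fun u hu => ?_⟩
  obtain ⟨a, b, c⟩ := hS u hu
  rw [num_eq] at c
  exact ⟨a, b, c⟩

/-- every countable set is covered by an increasing sequence of spaces of finite dimension -/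
theorem exhaust (K : Set ℂ) (hK : K.Countable) : ∃ V : ℕ → Submodule ℚ ℂ, (∀ j, Module.Finite ℚ (V j)) ∧ Monotone V ∧
    ∀ U : Submodule ℚ ℂ, U ≤ Submodule.span ℚ K → Module.Finite ℚ U → ∃ j, U ≤ V j := by
  classical
  obtain ⟨f, hf⟩ : ∃ f : ℕ → ℂ, K ⊆ Set.range f := by
    rcases K.eq_empty_or_nonempty with h | h
    · exact ⟨fun _ => 0, by rw [h]; exact Set.empty_subset _⟩
    · obtain ⟨f, hf⟩ := hK.exists_eq_range h
      exact ⟨f, hf.le⟩
  set V : ℕ → Submodule ℚ ℂ := fun j => Submodule.span ℚ (f '' Set.Iio j) with hV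
  have hmono : Monotone V := fun a b hab => Submodule.span_mono (Set.image_mono (Set.Iio_subset_Iio hab))
  refine ⟨V, fun j => Module.Finite.span_of_finite ℚ ((Set.finite_Iio j).image f), hmono, fun U hU hUf => ?_⟩
  have h1 : ∀ z ∈ Submodule.span ℚ K, ∃ j, z ∈ V j := by
    intro z hz
    induction hz using Submodule.span_induction with
    | mem z hz =>
      obtain ⟨i, rfl⟩ := hf hz
      exact ⟨i + 1, Submodule.subset_span ⟨i, Nat.lt_succ_self i, rfl⟩⟩
    | zero => exact ⟨0, Submodule.zero_mem _⟩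
    | add a b _ _ ha hb =>
      obtain ⟨i, hi⟩ := ha
      obtain ⟨j, hj⟩ := hb
      exact ⟨max i j, Submodule.add_mem _ (hmono (le_max_left i j) hi) (hmono (le_max_right i j) hj)⟩
    | smul q a _ ha =>
      obtain ⟨i, hi⟩ := ha
      exact ⟨i, Submodule.smul_mem _ q hi⟩
  obtain ⟨s, hs⟩ := (Module.Finite.iff_fg.1 hUf)
  subst hs
  have h2 : ∀ z ∈ s, ∃ j, z ∈ V j := fun z hz => h1 z (hU (Submodule.subset_span hz))
  choose! g hg using h2
  refine ⟨s.sup g, ?_⟩
  rw [Submodule.span_le]
  intro z hz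
  exact hmono (Finset.le_sup hz) (hg z hz)

end proofs

/-- **Main result.** -/
theorem result (r : ℕ → ℕ) (α : ∀ j, Fin (r j) → ℤ) (hα : ∀ j, Function.Injective (α j)) (h0 : ∀ j a, α j a ≠ 0)
    (W : ℕ → ℕ) (A : ℕ → Set ℕ) (hA : ∀ j, Clustered (A j)) :
    -- given constants
    (∀ V : ℕ → Submodule ℚ ℂ, (∀ j, Module.Finite ℚ (V j)) → Monotone V →
      ∃ t : ℕ → ℕ, StrictMono t ∧ (∀ j, t j ∈ A j) ∧ ∀ l N, ¬ Related (V l) (products α W t l N)) ∧
    -- a countable set of constants
    ∀ K : Set ℂ, K.Countable → ∃ t : ℕ → ℕ, StrictMono t ∧ (∀ j, t j ∈ A j) ∧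
      (∀ N, ¬ Related 1 (products α W t 0 N)) ∧
      ∀ V : Submodule ℚ ℂ, V ≤ Submodule.span ℚ K → Module.Finite ℚ V →
        ∃ l₀, ∀ l ≥ l₀, ∀ N, ¬ Related V (products α W t l N) := by
  classical
  have hmain : ∀ V : ℕ → Submodule ℚ ℂ, (∀ j, Module.Finite ℚ (V j)) → Monotone V →
      ∃ t : ℕ → ℕ, StrictMono t ∧ (∀ j, t j ∈ A j) ∧ ∀ l N, ¬ Related (V l) (products α W t l N) := fun V hVf hV =>
    Pool.Agent.U534.Tens.main (x := fun j s => num (α j) (W j) s) (o := fun j => (0, ⟨[], by simp⟩))
      (fun j s => num_one _ _ _) (fun j => hyp (α j) (hα j) (h0 j) (W j)) hA hVf hV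
  refine ⟨hmain, fun K hK => ?_⟩
  obtain ⟨V, hVf, hV, hVK⟩ := exhaust K hK
  have h1 : Module.Finite ℚ (1 : Submodule ℚ ℂ) := by
    rw [Submodule.one_eq_span]
    infer_instance
  obtain ⟨t, ht1, ht2, ht3⟩ := hmain (fun j => V j ⊔ 1) (fun j => by
    have := hVf j
    infer_instance) (fun a b hab => sup_le_sup_right (hV hab) 1)
  have hmon : ∀ {β : Type} [Fintype β] {U U' : Submodule ℚ ℂ} {x : β → ℂ}, U ≤ U' → Related U x → Related U' x := by
    rintro β _ U U' x hU ⟨v, h1, h2, h3⟩
    exact ⟨v, fun b => hU (h1 b), h2, h3⟩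
  refine ⟨t, ht1, ht2, fun N h => ht3 0 N (hmon le_sup_right h), fun U hU hUf => ?_⟩
  obtain ⟨j, hj⟩ := hVK U hU hUf
  exact ⟨j, fun l hl N h => ht3 l N (hmon (hj.trans ((hV hl).trans le_sup_left)) h)⟩

end Pool.Agent.Results.MP_1eadae_ag.InfiniteTensorProducts
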