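import Pool.Agent.U725.MT.PolMain

/-!
# The comparison isomorphism of a sum of polylogarithm motives lies in no proper subtorsor

Let `a_1, …, a_r` be algebraic numbers such that `a_1, …, a_r, 1 - a_1, …, 1 - a_r` are multiplicatively independent, and
let `M` be the direct sum of the polylogarithm motives `Pol_N(a_i)`, `N ≥ 2`. This is a mixed Tate motive of rank
`r (N + 1)`. In suitable bases of the Betti and of the de Rham realization the comparison isomorphism is the block diagonal
matrix with the blocks

    1
    -Li_1(a)    2πi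
    -Li_2(a)    2πi log a                  (2πi)²
    …
    -Li_N(a)    2πi (log a)^(N-1)/(N-1)!   (2πi)² (log a)^(N-2)/(N-2)!   …   (2πi)^N

for `a = a_1, …, a_r`, and the torsor of the motivic periods of `M` is the set `G` of all invertible block diagonal matrices
with blocks of the form

    1
    y_1   l
    y_2   l t                  l²
    …
    y_N   l t^(N-1)/(N-1)!     l² t^(N-2)/(N-2)!   …   l^N

with the same `l ≠ 0` in all blocks (`t` and the `y_k` depend on the block); its dimension is `1 + r (N + 1)`. The period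
conjecture of Grothendieck and Kontsevich for `M` says that no proper subvariety of `G`, defined over the field of algebraic
numbers, contains the comparison isomorphism. A weaker conjecture is that no proper subtorsor does (`x y⁻¹ z ∈ T` for all
`x, y, z ∈ T`). It says that all relations which come from tensors are motivic: all subspaces of all tensor spaces of `M`
which are rational (over the field of the algebraic numbers) in the Betti and in the de Rham realization are
submotives (over `ℚ` this is the de Rham-Betti conjecture).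

**Theorem.** For every field `K` of algebraic numbers, the smallest `K`-subtorsor of `GL` which contains the comparison
isomorphism of `M` is `G`.

Nothing on the arithmetic of the numbers `Li_k(a)`, `k ≥ 2`, is used or known (the theorem holds for arbitrary complex
numbers `y_k` in place of `-Li_k(a)`, `k ≥ 2`, so also for all branches).

## Proof

Let `T` be a `K`-subtorsor with `c = exp(L) τ(2πi) ∈ T`. By the criterion `crit` in `Pool/Agent/U725/MT` (see also
`Pool/Agent/Results/MP_e54452_nt/IrrationalityCriterion.lean`) `G ⊆ T` if there is no linear form `f ≠ 0` over `K` on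
`𝔲 / [𝔲, 𝔲]`, homogeneous of a degree `d`, with `f(L) ∈ K + K (2πi)^d`. Here only `d = 1` is possible, and then
`f(L) = ∑ f(N_j) ℓ_j`. So `f(N_j) = 0` by the theorem of Baker on linear forms in logarithms
(`Pool.Agent.H335R2.baker_inhom`). The Lie algebra of the unipotent part of the group `G` of the polylogarithms is spanned
by the matrices `N` (with the entries `1` below the diagonal, except in the first column) and `E_k` (one entry `1`, in the
first column) of the blocks, and `[N, E_k] = E_(k+1)`, so it is generated by the elements `N`, `E_1` of degree one.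
-/

set_option autoImplicit false

open Matrix

open scoped Nat

namespace Pool.Agent.Results.MP_1eadae_ag.PolylogTorsors

/-- `T` is (the set of complex points of) a `K`-subtorsor of `GL_B`: it is closed under `x y⁻¹ z`, and it is defined in
`GL_B` by polynomials with coefficients in `K`. -/
def IsSubtorsor (K : Subfield ℂ) {B : Type} [Fintype B] [DecidableEq B] (T : Set (Matrix B B ℂ)) : Prop :=
  (∀ x ∈ T, ∀ y ∈ T, ∀ z ∈ T, x * y⁻¹ * z ∈ T) ∧ ∃ J : Set (MvPolynomial (B × B) K), ∀ x : Matrix B B ℂ, x ∈ T ↔
    IsUnit x ∧ ∀ p ∈ J, MvPolynomial.eval (fun b => x b.1 b.2) (MvPolynomial.map (algebraMap K ℂ) p) = 0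

/-- `Ω` is the smallest `K`-subtorsor which contains `c` -/
def IsOmega (K : Subfield ℂ) {B : Type} [Fintype B] [DecidableEq B] (c : Matrix B B ℂ) (Ω : Set (Matrix B B ℂ)) : Prop :=
  IsSubtorsor K Ω ∧ c ∈ Ω ∧ ∀ T : Set (Matrix B B ℂ), IsSubtorsor K T → c ∈ T → Ω ⊆ T

/-- the numbers `α j` are multiplicatively independent -/
def MulIndep {J : Type} [Fintype J] (α : J → ℂ) : Prop := ∀ u : J → ℤ, ∏ j, α j ^ u j = 1 → u = 0

/-- the block diagonal matrix with `r` blocks of size `n + 3`, with rows and columns `0, …, n + 2`; the block `i` has in the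
row `k` the entry `y i k` (for `k = 0`: the entry `1`) in the column `0`, the entry `l^j (t i)^(k-j) / (k-j)!` in the column
`j` for `1 ≤ j ≤ k`, and the entry `0` in the columns `j > k` -/
noncomputable def polylogMatrix {r n : ℕ} (l : ℂ) (t : Fin r → ℂ) (y : Fin r → Fin (n + 3) → ℂ) :
    Matrix (Fin r × Fin (n + 3)) (Fin r × Fin (n + 3)) ℂ :=
  Matrix.of fun b b' => if b.1 = b'.1 ∧ b'.2 ≤ b.2 then
    (if b'.2 = 0 then (if b.2 = 0 then 1 else y b.1 b.2) else
      l ^ (b'.2 : ℕ) * t b.1 ^ ((b.2 : ℕ) - b'.2) / (((b.2 : ℕ) - b'.2)! : ℂ)) else 0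

/-- the torsor of the motivic periods -/
def motivicTorsor (r n : ℕ) : Set (Matrix (Fin r × Fin (n + 3)) (Fin r × Fin (n + 3)) ℂ) :=
  {x | ∃ l : ℂ, l ≠ 0 ∧ ∃ (t : Fin r → ℂ) (y : Fin r → Fin (n + 3) → ℂ), x = polylogMatrix l t y}

open Pool.Agent.U725.MT Pool.Agent.Y123.ST

/-- **Main result.** -/
theorem result (r n : ℕ) (a : Fin r → ℂ) (ha : ∀ i, IsAlgebraic ℚ (a i)) (hind : MulIndep (Sum.elim a fun i => 1 - a i))
    (t : Fin r → ℂ) (y : Fin r → Fin (n + 3) → ℂ) (ht : ∀ i, Complex.exp (t i) = a i)
    (hy : ∀ i, Complex.exp (y i 1) = 1 - a i) (K : Subfield ℂ) (hK : ∀ x ∈ K, IsAlgebraic ℚ x) :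
    IsOmega K (polylogMatrix (2 * Real.pi * Complex.I) t y) (motivicTorsor r n) := by
  classical
  refine ⟨subT_iff.2 Pol.isSub, ⟨_, Complex.two_pi_I_ne_zero, t, y, rfl⟩, fun T hT hc => ?_⟩
  refine Pol.pol_main (y := y) hK (fun i => ?_) (fun i => ?_) (fun u hu => ?_) (subT_iff.1 hT) hc
  · rw [ht]
    exact ha i
  · rw [hy]
    exact isAlgebraic_one.sub (ha i)
  · refine hind u ((Finset.prod_congr rfl fun j _ => ?_).trans hu)
    rcases j with i | i
    · rw [Sum.elim_inl, Sum.elim_inl, ht]
    · rw [Sum.elim_inr, Sum.elim_inr, hy]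

end Pool.Agent.Results.MP_1eadae_ag.PolylogTorsors
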